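import Pool.Agent.R592.Ba.Defs

/-! BAF-5 (by helper734): the weak axiom makes all sets of size at most `κ` meagre. -/

open Cardinal Set Pool.Agent.R592.Ba

namespace Pool.Agent.R734.Ba

/-- sets with prescribed zeros -/
def Z (n : ℕ) : Set X := {x | ∀ i, x (n + 2 * i) = false}

lemma isClosed_Z (n : ℕ) : IsClosed (Z n) := by
  have : Z n = ⋂ i, {x : X | x (n + 2 * i) = false} := by
    ext x; simp [Z]
  rw [this]
  apply isClosed_iInter
  intro i
  exact isClosed_eq (continuous_apply _) continuous_const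

lemma interior_Z (n : ℕ) : interior (Z n) = ∅ := by
  rw [Set.eq_empty_iff_forall_notMem]
  intro x hx
  have ht : Filter.Tendsto (fun k : ℕ => Function.update x (n + 2 * k) true) Filter.atTop
      (nhds x) := by
    rw [tendsto_pi_nhds]
    intro j
    apply tendsto_const_nhds.congr'
    filter_upwards [Filter.eventually_gt_atTop j] with k hk
    rw [Function.update_of_ne (by omega)]
  have hev := ht.eventually (isOpen_interior.mem_nhds hx)
  obtain ⟨k, hk⟩ := hev.exists
  have h1 := interior_subset hk k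
  simp at h1

lemma app_add (s : List Bool) (x : X) (i : ℕ) : app s x (s.length + i) = x i := by
  simp [app]

lemma app_inj (s : List Bool) : Function.Injective (app s) := by
  intro x y h
  ext i
  rw [← app_add s x i, ← app_add s y i, h]

lemma app_mem_cyl (s : List Bool) (x : X) : app s x ∈ cyl s := by
  intro i hi
  simp [app, hi]

lemma app_mem_Z (s : List Bool) (x : X) (hx : x ∈ Z 0) : app s x ∈ Z s.length := by
  intro i
  rw [app_add]
  simpa using hx i

lemma exists_cyl {U : Set X} (hU : IsOpen U) (hne : U.Nonempty) : ∃ s, cyl s ⊆ U := by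
  obtain ⟨x, hx⟩ := hne
  obtain ⟨I, u, h1, h2⟩ := isOpen_pi_iff.1 hU x hx
  refine ⟨List.ofFn (fun i : Fin (I.sup id + 1) => x i), ?_⟩
  intro y hy
  apply h2
  intro i hi
  have hle : i ≤ I.sup id := Finset.le_sup (f := id) hi
  have h3 := hy i (by rw [List.length_ofFn]; omega)
  rw [List.getElem_ofFn] at h3
  rw [h3]
  exact (h1 i hi).2

lemma mk_Z0 : 𝔠 ≤ #(Z 0) := by
  have hX : #X = 𝔠 := by simp [X]
  rw [← hX]
  refine Cardinal.mk_le_of_injective (f := fun x : X =>
    (⟨fun n => if n % 2 = 0 then false else x (n / 2), ?_⟩ : Z 0)) ?_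
  · intro i
    simp
  · intro x y h
    ext i
    have h1 := congrFun (congrArg Subtype.val h) (2 * i + 1)
    have e1 : (2 * i + 1) % 2 = 1 := by omega
    have e2 : (2 * i + 1) / 2 = i := by omega
    simp only [e1, e2] at h1
    simpa using h1

/-- a meagre `κ`-dense set -/
def D2 (E : Set X) : Set X := ⋃ s : List Bool, app s '' E

lemma D2_sub (E : Set X) (hE : E ⊆ Z 0) : D2 E ⊆ ⋃ n, Z n := by
  intro x hx
  obtain ⟨s, hs⟩ := mem_iUnion.1 hx
  obtain ⟨y, hy, rfl⟩ := hs
  exact mem_iUnion.2 ⟨s.length, app_mem_Z s y (hE hy)⟩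

lemma D2_card (κ : Cardinal.{0}) (hκ : ℵ₀ ≤ κ) (E : Set X) (hE : #E = κ) : #(D2 E) ≤ κ := by
  unfold D2
  refine (Cardinal.mk_iUnion_le _).trans ?_
  have h1 : #(List Bool) ≤ κ := (Cardinal.mk_le_aleph0).trans hκ
  have h2 : (⨆ s : List Bool, #(app s '' E)) ≤ κ := by
    apply ciSup_le'
    intro s
    exact (Cardinal.mk_image_le).trans hE.le
  calc #(List Bool) * ⨆ s : List Bool, #(app s '' E) ≤ κ * κ := mul_le_mul' h1 h2
    _ = κ := Cardinal.mul_eq_self hκ

lemma D2_ge (κ : Cardinal.{0}) (E : Set X) (hE : #E = κ) {U : Set X} (hU : IsOpen U)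
    (hne : U.Nonempty) : κ ≤ #(↥(D2 E ∩ U)) := by
  obtain ⟨s, hs⟩ := exists_cyl hU hne
  have h1 : app s '' E ⊆ D2 E ∩ U := by
    rintro _ ⟨y, hy, rfl⟩
    exact ⟨mem_iUnion.2 ⟨s, ⟨y, hy, rfl⟩⟩, hs (app_mem_cyl s y)⟩
  calc κ = #(app s '' E) := by rw [Cardinal.mk_image_eq (app_inj s), hE]
    _ ≤ _ := Cardinal.mk_le_mk_of_subset h1

/-- closed sets with empty interior restrict to such sets in a dense subspace -/
lemma interior_pre {D : Set X} (hD : Dense D) {K : Set X} (hK : IsClosed K)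
    (hK0 : interior K = ∅) : interior ((↑) ⁻¹' K : Set D) = ∅ := by
  rw [Set.eq_empty_iff_forall_notMem]
  intro y hy
  obtain ⟨V, hV, hVe⟩ := isOpen_induced_iff.1 (isOpen_interior : IsOpen (interior
    ((↑) ⁻¹' K : Set D)))
  have hyV : (y : X) ∈ V := by
    have : y ∈ ((↑) ⁻¹' V : Set D) := by rw [hVe]; exact hy
    exact this
  have hsub : V ∩ D ⊆ K := by
    rintro z ⟨hzV, hzD⟩
    have : (⟨z, hzD⟩ : D) ∈ ((↑) ⁻¹' V : Set D) := hzV
    rw [hVe] at this
    have h4 : (⟨z, hzD⟩ : D) ∈ ((↑) ⁻¹' K : Set D) := interior_subset this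
    exact h4
  have hVK : V ⊆ K := by
    have h1 : V ⊆ closure (V ∩ D) := hD.open_subset_closure_inter hV
    exact h1.trans (closure_minimal hsub hK)
  have : (y : X) ∈ interior K := mem_interior.2 ⟨V, hVK, hV, hyV⟩
  rw [hK0] at this
  exact this

lemma nowhereDense_image {D : Set X} (hD : Dense D) {A : Set D} (hA : IsClosed A)
    (hA0 : interior A = ∅) : IsNowhereDense ((↑) '' A : Set X) := by
  unfold IsNowhereDense
  rw [Set.eq_empty_iff_forall_notMem]
  intro x hx
  obtain ⟨C, hC, hCe⟩ := isClosed_induced_iff.1 hA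
  have hsub : ((↑) '' A : Set X) ⊆ C := by
    rintro _ ⟨z, hz, rfl⟩
    rw [← hCe] at hz
    exact hz
  have hcl : closure ((↑) '' A : Set X) ⊆ C := closure_minimal hsub hC
  obtain ⟨y, hyI, hyD⟩ := hD.inter_open_nonempty _ isOpen_interior ⟨x, hx⟩
  have h1 : (⟨y, hyD⟩ : D) ∈ interior A := by
    have hyI' : (⟨y, hyD⟩ : D) ∈
        ((↑) ⁻¹' (interior (closure ((↑) '' A : Set X))) : Set D) := hyI
    refine mem_interior.2 ⟨_, ?_, isOpen_interior.preimage continuous_subtype_val, hyI'⟩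
    intro z hz
    rw [← hCe]
    exact hcl (interior_subset hz)
  rw [hA0] at h1
  exact h1

theorem meagre_of_card (κ : Cardinal.{0}) (hκ : ℵ₀ ≤ κ) (hc : κ ≤ 𝔠) (h : BAm κ X) (N : Set X)
    (hN : #N ≤ κ) : IsMeagre N := by
  obtain ⟨E, hEZ, hE⟩ := Cardinal.le_mk_iff_exists_subset.1 (hc.trans mk_Z0)
  have k2 : KDense κ (D2 E) := by
    intro U hU hne
    exact le_antisymm ((Cardinal.mk_le_mk_of_subset inter_subset_left).trans
      (D2_card κ hκ E hE)) (D2_ge κ E hE hU hne)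
  have k1 : KDense κ (N ∪ D2 E) := by
    intro U hU hne
    apply le_antisymm
    · refine (Cardinal.mk_le_mk_of_subset inter_subset_left).trans ?_
      refine (Cardinal.mk_union_le _ _).trans ?_
      calc #N + #(D2 E) ≤ κ + κ := add_le_add hN (D2_card κ hκ E hE)
        _ = κ := Cardinal.add_eq_self hκ
    · exact (D2_ge κ E hE hU hne).trans (Cardinal.mk_le_mk_of_subset
        (inter_subset_inter_left _ subset_union_right))
  have dense_of : ∀ {D : Set X}, KDense κ D → Dense D := by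
    intro D hD
    rw [dense_iff_inter_open]
    intro U hU hne
    have h1 := hD U hU hne
    have h2 : #(↥(D ∩ U)) ≠ 0 := by
      rw [h1]
      exact (lt_of_lt_of_le Cardinal.aleph0_pos hκ).ne'
    rw [Cardinal.mk_ne_zero_iff] at h2
    obtain ⟨⟨z, hz⟩⟩ := h2
    exact ⟨z, hz.2, hz.1⟩
  have d2 := dense_of k2
  have d1 := dense_of k1
  obtain ⟨φ⟩ := h _ _ k1 k2
  have hcov : N ∪ D2 E ⊆ ⋃ n, ((↑) '' (φ ⁻¹' ((↑) ⁻¹' (Z n) : Set (D2 E))) : Set X) := by
    intro x hx
    have h1 : ((φ ⟨x, hx⟩ : D2 E) : X) ∈ ⋃ n, Z n := D2_sub E hEZ (φ ⟨x, hx⟩).2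
    obtain ⟨n, hn⟩ := mem_iUnion.1 h1
    exact mem_iUnion.2 ⟨n, ⟨⟨x, hx⟩, hn, rfl⟩⟩
  have hm : IsMeagre (⋃ n, ((↑) '' (φ ⁻¹' ((↑) ⁻¹' (Z n) : Set (D2 E))) : Set X)) := by
    apply isMeagre_iUnion
    intro n
    apply IsNowhereDense.isMeagre
    apply nowhereDense_image d1
    · exact ((isClosed_Z n).preimage continuous_subtype_val).preimage φ.continuous
    · rw [← φ.preimage_interior, interior_pre d2 (isClosed_Z n) (interior_Z n)]
      simp
  exact hm.mono (subset_union_left.trans hcov)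

theorem meag : Meag := by
  intro κ hκ hc h
  by_contra hcon
  push Not at hcon
  have hne : {κ : Cardinal.{0} | ∃ N : Set X, #N = κ ∧ ¬ IsMeagre N}.Nonempty :=
    ⟨#(univ : Set X), univ, rfl, not_isMeagre_of_isOpen isOpen_univ univ_nonempty⟩
  obtain ⟨N, hN1, hN2⟩ := csInf_mem hne
  apply hN2
  apply meagre_of_card κ hκ hc h
  rw [hN1]
  exact hcon

end Pool.Agent.R734.Ba
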